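import Pool.Agent.Helper40_Dio.AStmt

/-! # DIO (MP_9ca527_nt), module IND: multiplicative independence. -/

set_option autoImplicit false

namespace Pool.Agent.DIO.H38

open Real

lemma nsq (s k : ℕ) (h : s * s = k + 1) (hk : 0 < k) : ¬ IsSquare k := by
  rintro ⟨l, hl⟩
  have hl1 : 1 ≤ l := by
    rcases Nat.eq_zero_or_pos l with rfl | h0
    · omega
    · exact h0
  have h1 : l < s := by nlinarith
  nlinarith

lemma nsq_mul (a b c : ℕ) (hc : 0 < c) (h : ¬ IsSquare (a * b)) : ¬ IsSquare (a * c * (b * c)) := by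
  rintro ⟨k, hk⟩
  have h1 : c ^ 2 ∣ k ^ 2 := ⟨a * b, by rw [pow_two, pow_two, ← hk]; ring⟩
  have h2 : c ∣ k := (Nat.pow_dvd_pow_iff (by norm_num)).1 h1
  obtain ⟨l, rfl⟩ := h2
  apply h
  refine ⟨l, ?_⟩
  have h3 : (c * c) * (a * b) = (c * c) * (l * l) := by
    calc (c * c) * (a * b) = a * c * (b * c) := by ring
      _ = c * l * (c * l) := hk
      _ = (c * c) * (l * l) := by ring
  exact Nat.eq_of_mul_eq_mul_left (by positivity) h3

lemma eta0 (A B G x0 z0 y1 z1 : ℝ) (hA : A ≠ 0) (hd : y1 * G + z1 * B ≠ 0)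
    (h : G ^ 2 * y1 ^ 2 - B ^ 2 * z1 ^ 2 = G ^ 2 - B ^ 2) :
    (A * G) * (B * G) * (x0 * y1 * G ^ 2 - x0 * z1 * (B * G) + z0 * y1 * (A * G)) -
      z0 * z1 * A ^ 2 * B ^ 2 * G ^ 2 =
    G ^ 2 * A ^ 2 * (G ^ 2 - B ^ 2) * (B * (x0 * G + z0 * A) / (A * (y1 * G + z1 * B))) := by
  rw [mul_div_assoc', eq_div_iff (mul_ne_zero hA hd)]
  linear_combination A ^ 2 * B * G ^ 2 * (x0 * G + z0 * A) * h

lemma eta3 (A B G x0 z0 y1 z1 : ℝ) (hA : A ≠ 0) (hd : y1 * G + z1 * B ≠ 0)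
    (h0 : G ^ 2 * x0 ^ 2 - A ^ 2 * z0 ^ 2 = G ^ 2 - A ^ 2)  :
    (G ^ 2 * A ^ 2 * (G ^ 2 - B ^ 2) * (B * (x0 * G + z0 * A) / (A * (y1 * G + z1 * B)))) *
    ((A * G) * (B * G) * (x0 * y1 * G ^ 2 + x0 * z1 * (B * G) - z0 * y1 * (A * G)) -
      z0 * z1 * A ^ 2 * B ^ 2 * G ^ 2) =
    G ^ 4 * A ^ 2 * B ^ 2 * (G ^ 2 - A ^ 2) * (G ^ 2 - B ^ 2) := by
  rw [mul_div_assoc', div_mul_eq_mul_div, div_eq_iff (mul_ne_zero hA hd)]
  linear_combination A ^ 3 * B ^ 2 * G ^ 4 * (G ^ 2 - B ^ 2) * (y1 * G + z1 * B) * h0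

lemma pos_of (X Y : ℝ) (h1 : 0 < (X + Y) * (X - Y)) (hX : 0 < X) : 0 < X + Y := by
  by_contra h
  push Not at h
  have h2 : 0 < X - Y := by linarith
  nlinarith

lemma exp_eq (P Q : ℝ) (hQ : 0 < Q) (hPQ : Q < P) (i j : ℕ)
    (h : P ^ i * Q ^ j = P ^ j * Q ^ i) : i = j := by
  have hP : 0 < P := hQ.trans hPQ
  have h1 : 1 < P / Q := by rwa [one_lt_div hQ]
  have h2 : (P / Q) ^ i = (P / Q) ^ j := by
    rw [div_pow, div_pow, div_eq_div_iff (by positivity) (by positivity), h]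
  exact pow_right_injective₀ (by linarith) h1.ne' h2

theorem ind (hR : RngStatement) : IndStatement := by
  intro a b c r s t z0 x0 z1 y1 x y z m n M i j hij
  obtain ⟨ha, hab, hbc, hr, hs, ht, x0p, y1p, p0, p1, -, -, -, -, -⟩ := M
  have hb : 0 < b := by omega
  have hc : 0 < c := by omega
  have np : ¬ IsSquare (a * c) := nsq s (a * c) hs (by positivity)
  have nq : ¬ IsSquare (b * c) := nsq t (b * c) ht (by positivity)
  have npq : ¬ IsSquare (a * c * (b * c)) := nsq_mul a b c hc (nsq r (a * b) hr (by positivity))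
  obtain ⟨S, _, O, u, v, hu, hv, hinj, u0, v0, u1, v1, u2, v2, u3, v3⟩ :=
    hR (a * c) (b * c) np nq npq
  set A : ℝ := √(a : ℝ) with hAdef
  set B : ℝ := √(b : ℝ) with hBdef
  set G : ℝ := √(c : ℝ) with hGdef
  have har : (0 : ℝ) < a := by exact_mod_cast ha
  have hbr : (0 : ℝ) < b := by exact_mod_cast hb
  have hcr : (0 : ℝ) < c := by exact_mod_cast hc
  have hA : 0 < A := Real.sqrt_pos.2 har
  have hB : 0 < B := Real.sqrt_pos.2 hbr
  have hG : 0 < G := Real.sqrt_pos.2 hcr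
  have hA2 : A ^ 2 = a := Real.sq_sqrt har.le
  have hB2 : B ^ 2 = b := Real.sq_sqrt hbr.le
  have hG2 : G ^ 2 = c := Real.sq_sqrt hcr.le
  have hAG : √((a * c : ℕ) : ℝ) = A * G := by
    push_cast
    exact Real.sqrt_mul har.le _
  have hBG : √((b * c : ℕ) : ℝ) = B * G := by
    push_cast
    exact Real.sqrt_mul hbr.le _
  rw [hAG] at u0 u1 u2 u3
  rw [hBG] at v0 v1 v2 v3
  have hs' : (s : ℝ) ^ 2 = a * c + 1 := by
    have : ((s * s : ℕ) : ℝ) = ((a * c + 1 : ℕ) : ℝ) := by rw [hs]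
    push_cast at this
    linarith [this]
  have ht' : (t : ℝ) ^ 2 = b * c + 1 := by
    have : ((t * t : ℕ) : ℝ) = ((b * c + 1 : ℕ) : ℝ) := by rw [ht]
    push_cast at this
    linarith [this]
  have q0 : G ^ 2 * (x0 : ℝ) ^ 2 - A ^ 2 * (z0 : ℝ) ^ 2 = G ^ 2 - A ^ 2 := by
    have : ((a * z0 ^ 2 - c * x0 ^ 2 : ℤ) : ℝ) = (((a : ℤ) - c : ℤ) : ℝ) := by rw [p0]
    push_cast at this
    rw [hG2, hA2]
    linarith
  have q1 : G ^ 2 * (y1 : ℝ) ^ 2 - B ^ 2 * (z1 : ℝ) ^ 2 = G ^ 2 - B ^ 2 := by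
    have : ((b * z1 ^ 2 - c * y1 ^ 2 : ℤ) : ℝ) = (((b : ℤ) - c : ℤ) : ℝ) := by rw [p1]
    push_cast at this
    rw [hG2, hB2]
    linarith
  have hx0 : (0 : ℝ) < x0 := by exact_mod_cast x0p
  have hy1 : (0 : ℝ) < y1 := by exact_mod_cast y1p
  have hbc' : (b : ℝ) < c := by exact_mod_cast hbc
  have hab' : (a : ℝ) < b := by exact_mod_cast hab
  have hnum : 0 < x0 * G + z0 * A := by
    refine pos_of _ _ ?_ (by positivity)
    have : (x0 * G + z0 * A) * (x0 * G - z0 * A) = (c : ℝ) - a := by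
      rw [← hG2, ← hA2]
      linear_combination q0
    rw [this]
    linarith
  have hden : 0 < y1 * G + z1 * B := by
    refine pos_of _ _ ?_ (by positivity)
    have : (y1 * G + z1 * B) * (y1 * G - z1 * B) = (c : ℝ) - b := by
      rw [← hG2, ← hB2]
      linear_combination q1
    rw [this]
    linarith
  -- the three numbers
  have hα : alp a c s = s + A * G := by rw [alp, hAG]
  have hβ : alp b c t = t + B * G := by rw [alp, hBG]
  have hα3 : alp3 a b c z0 x0 z1 y1 = B * (x0 * G + z0 * A) / (A * (y1 * G + z1 * B)) := rfl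
  clear_value A B G
  set α : ℝ := s + A * G with hαdef
  set β : ℝ := t + B * G with hβdef
  set α3 : ℝ := B * (x0 * G + z0 * A) / (A * (y1 * G + z1 * B)) with hα3def
  rw [hα, hβ, hα3] at hij
  have hα3pos : 0 < α3 := by positivity
  have hαpos : 1 < α := by
    have hs1 : (1 : ℝ) ≤ s := by
      have : 1 ≤ s := by
        rcases Nat.eq_zero_or_pos s with rfl | h
        · omega
        · exact h
      exact_mod_cast this
    have : 0 < A * G := by positivity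
    linarith
  have hβpos : 1 < β := by
    have hs1 : (1 : ℝ) ≤ t := by
      have : 1 ≤ t := by
        rcases Nat.eq_zero_or_pos t with rfl | h
        · omega
        · exact h
      exact_mod_cast this
    have : 0 < B * G := by positivity
    linarith
  have hαα : α * (s - A * G) = 1 := by
    have : α * (s - A * G) = (s : ℝ) ^ 2 - A ^ 2 * G ^ 2 := by rw [hαdef]; ring
    rw [this, hA2, hG2, hs']
    ring
  have hββ : β * (t - B * G) = 1 := by
    have : β * (t - B * G) = (t : ℝ) ^ 2 - B ^ 2 * G ^ 2 := by rw [hβdef]; ring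
    rw [this, hB2, hG2, ht']
    ring
  -- elements of S
  obtain ⟨η, hη⟩ : ∃ η : S, η = u * v * ((x0 : S) * (y1 : S) * (c : S) - (x0 : S) * (z1 : S) * v +
      (z0 : S) * (y1 : S) * u) - (z0 : S) * (z1 : S) * (a : S) * (b : S) * (c : S) := ⟨_, rfl⟩
  obtain ⟨D, hD⟩ : ∃ D : S, D = (c : S) * (a : S) * ((c : S) - (b : S)) := ⟨_, rfl⟩
  have hσD : ∀ k, O.σ k D = c * a * (c - b) := by
    intro k
    rw [hD]
    simp only [map_mul, map_sub, map_natCast]
  set Dr : ℝ := c * a * (c - b) with hDr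
  have hDrpos : 0 < Dr := by
    have : (0 : ℝ) < c - b := by linarith
    positivity
  have hση0 : O.σ 0 η = Dr * α3 := by
    rw [hη]
    simp only [map_mul, map_sub, map_add, map_natCast, map_intCast, u0, v0]
    rw [hα3def, hDr, ← hA2, ← hB2, ← hG2]
    refine Eq.trans ?_ ((eta0 A B G x0 z0 y1 z1 hA.ne' hden.ne' q1).trans ?_)
    · ring
    · congr 1
  set η3 : ℝ := O.σ 3 η with hη3
  have hP : Dr * α3 * η3 = c ^ 2 * a * b * (c - a) * (c - b) := by
    rw [hη3, hη]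
    simp only [map_mul, map_sub, map_add, map_natCast, map_intCast, u3, v3]
    rw [hα3def, hDr, ← hA2, ← hB2, ← hG2]
    refine Eq.trans ?_ ((eta3 A B G x0 z0 y1 z1 hA.ne' hden.ne' q0).trans ?_)
    · congr 1
      ring
    · ring
  clear_value α β α3 Dr η3
  -- first element
  have hE : (s + u) ^ i.1 * (t + v) ^ i.2.1 * η ^ i.2.2 * D ^ j.2.2 =
      (s + u) ^ j.1 * (t + v) ^ j.2.1 * η ^ j.2.2 * D ^ i.2.2 := by
    refine sub_eq_zero.1 (hinj 0 _ ?_)
    simp only [map_mul, map_sub, map_add, map_pow, map_natCast, u0, v0, hσD, hση0]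
    rw [← hαdef, ← hβdef, mul_pow, mul_pow]
    linear_combination Dr ^ i.2.2 * Dr ^ j.2.2 * hij
  have hE3 := congrArg (O.σ 3) hE
  simp only [map_mul, map_add, map_pow, map_natCast, u3, v3, hσD, ← hη3] at hE3
  have e1 : α ^ i.1 * (s + -(A * G)) ^ i.1 = 1 := by
    rw [← mul_pow, ← sub_eq_add_neg, hαα, one_pow]
  have e2 : β ^ i.2.1 * (t + -(B * G)) ^ i.2.1 = 1 := by
    rw [← mul_pow, ← sub_eq_add_neg, hββ, one_pow]
  have e3 : α ^ j.1 * (s + -(A * G)) ^ j.1 = 1 := by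
    rw [← mul_pow, ← sub_eq_add_neg, hαα, one_pow]
  have e4 : β ^ j.2.1 * (t + -(B * G)) ^ j.2.1 = 1 := by
    rw [← mul_pow, ← sub_eq_add_neg, hββ, one_pow]
  have hi3 : i.2.2 = j.2.2 := by
    have hprod : (Dr * α3 * η3) ^ i.2.2 * (Dr * Dr) ^ j.2.2 =
        (Dr * α3 * η3) ^ j.2.2 * (Dr * Dr) ^ i.2.2 := by
      have h1 := congrArg₂ (· * ·) hij hE3
      calc (Dr * α3 * η3) ^ i.2.2 * (Dr * Dr) ^ j.2.2
          = (α ^ i.1 * (s + -(A * G)) ^ i.1) * (β ^ i.2.1 * (t + -(B * G)) ^ i.2.1) *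
            (Dr ^ i.2.2 * α3 ^ i.2.2 * η3 ^ i.2.2 * (Dr ^ j.2.2 * Dr ^ j.2.2)) := by
              rw [e1, e2, mul_pow, mul_pow, mul_pow]
              ring
        _ = (α ^ j.1 * (s + -(A * G)) ^ j.1) * (β ^ j.2.1 * (t + -(B * G)) ^ j.2.1) *
            (Dr ^ j.2.2 * α3 ^ j.2.2 * η3 ^ j.2.2 * (Dr ^ i.2.2 * Dr ^ i.2.2)) := by
              linear_combination Dr ^ i.2.2 * Dr ^ j.2.2 * h1
        _ = (Dr * α3 * η3) ^ j.2.2 * (Dr * Dr) ^ i.2.2 := by
              rw [e3, e4, mul_pow, mul_pow, mul_pow]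
              ring
    refine exp_eq _ _ (by positivity) ?_ _ _ hprod
    rw [hP, hDr]
    have h1 : (0 : ℝ) < c - b := by linarith
    have h2 : (0 : ℝ) < b * (c - a) - a * (c - b) := by
      have h5 : (b : ℝ) * (c - a) - a * (c - b) = c * (b - a) := by ring
      rw [h5]
      exact mul_pos hcr (by linarith)
    have h3 : (c : ℝ) ^ 2 * a * b * (c - a) * (c - b) - c * a * (c - b) * (c * a * (c - b)) =
        c ^ 2 * a * (c - b) * (b * (c - a) - a * (c - b)) := by ring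
    have h4 : (0 : ℝ) < c ^ 2 * a * (c - b) * (b * (c - a) - a * (c - b)) := by positivity
    linarith
  have hij2 : α ^ i.1 * β ^ i.2.1 = α ^ j.1 * β ^ j.2.1 := by
    rw [hi3] at hij
    exact mul_right_cancel₀ (pow_pos hα3pos _).ne' hij
  have hF : (s + u) ^ i.1 * (t + v) ^ i.2.1 = (s + u) ^ j.1 * (t + v) ^ j.2.1 := by
    refine sub_eq_zero.1 (hinj 0 _ ?_)
    simp only [map_mul, map_sub, map_add, map_pow, map_natCast, u0, v0]
    rw [← hαdef, ← hβdef, hij2, sub_self]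
  have hF2 := congrArg (O.σ 2) hF
  simp only [map_mul, map_add, map_pow, map_natCast, u2, v2] at hF2
  rw [← hαdef] at hF2
  have hi1 : i.1 = j.1 := by
    have h1 : (α * α) ^ i.1 = (α * α) ^ j.1 := by
      calc (α * α) ^ i.1 = α ^ i.1 * α ^ i.1 * (β ^ i.2.1 * (t + -(B * G)) ^ i.2.1) := by
            rw [e2, mul_pow, mul_one]
        _ = (α ^ i.1 * β ^ i.2.1) * (α ^ i.1 * (t + -(B * G)) ^ i.2.1) := by ring
        _ = (α ^ j.1 * β ^ j.2.1) * (α ^ j.1 * (t + -(B * G)) ^ j.2.1) := by rw [hij2, hF2]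
        _ = α ^ j.1 * α ^ j.1 * (β ^ j.2.1 * (t + -(B * G)) ^ j.2.1) := by ring
        _ = (α * α) ^ j.1 := by rw [e4, mul_pow, mul_one]
    have h2 : 1 < α * α := one_lt_mul_of_lt_of_le hαpos hαpos.le
    exact pow_right_injective₀ (by linarith) h2.ne' h1
  have hi2 : i.2.1 = j.2.1 := by
    rw [hi1] at hij2
    have h1 : β ^ i.2.1 = β ^ j.2.1 := mul_left_cancel₀ (by positivity) hij2
    exact pow_right_injective₀ (by linarith) hβpos.ne' h1
  exact Prod.ext hi1 (Prod.ext hi2 hi3)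

end Pool.Agent.DIO.H38
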