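import Pool.Agent.Helper40_Dio.AStmt
import Pool.Agent.Helper69_Weyl.Divisor

/-! # DIO (MP_9ca527_nt), module NPC: Diophantine triples ordered by the product. -/

set_option autoImplicit false

namespace Pool.Agent.DIO.H38

open Real

/-- triples of product at most `N` -/
def SS (N : ℕ) : Set (ℕ × ℕ × ℕ) :=
  {t | DTriple t.1 t.2.1 t.2.2 ∧ t.1 * t.2.1 * t.2.2 ≤ N}

/-- the larger extension -/
def Fe (x y e : ℕ) : ℕ := x + y + e + 2 * x * y * e + 2 * rst x y e

lemma SS_fin (N : ℕ) : (SS N).Finite := by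
  refine Set.Finite.subset (Finset.finite_toSet ((Finset.range (N + 1)) ×ˢ
    (Finset.range (N + 1)) ×ˢ (Finset.range (N + 1)))) ?_
  rintro ⟨x, y, z⟩ ⟨⟨hx, hxy, hyz, -⟩, hN⟩
  simp only at hx hxy hyz hN
  have hy : 1 ≤ y := by omega
  have hz : 1 ≤ z := by omega
  have h1 : x ≤ x * y * z := by
    calc x = x * 1 * 1 := by ring
      _ ≤ x * y * z := Nat.mul_le_mul (Nat.mul_le_mul le_rfl hy) hz
  have h2 : y ≤ x * y * z := by
    calc y = 1 * y * 1 := by ring
      _ ≤ x * y * z := Nat.mul_le_mul (Nat.mul_le_mul hx le_rfl) hz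
  have h3 : z ≤ x * y * z := by
    calc z = 1 * 1 * z := by ring
      _ ≤ x * y * z := Nat.mul_le_mul (Nat.mul_le_mul hx hy) le_rfl
  simp only [Finset.coe_product, Finset.coe_range, Set.mem_prod, Set.mem_Iio]
  omega

/-- the third members of the triples `{1, 3, w}` -/
def Hs (M : ℕ) : Set ℕ := {w | DTriple 1 3 w ∧ w ≤ M}

lemma Hs_fin (M : ℕ) : (Hs M).Finite :=
  Set.Finite.subset (Set.finite_Iic M) fun _ h => h.2

lemma Hs_rec (hG : GapStatement) (M : ℕ) : Hs M ⊆ {8} ∪ (Fe 1 3) '' Hs (M / 12) := by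
  rintro w ⟨hw, hM⟩
  rcases hG 1 3 w hw with ⟨r, hr⟩ | ⟨e, he, h1, h3, hs1, hs3, hz, hlt⟩
  · left
    obtain ⟨-, -, h, hc⟩ := hr
    have : r = 2 := by nlinarith
    subst this
    simp [hc]
  · right
    have he2 : e ≠ 2 := by
      rintro rfl
      obtain ⟨k, hk⟩ := hs1
      have : k < 2 := by nlinarith
      interval_cases k <;> omega
    have he3 : 3 < e := by omega
    refine ⟨e, ⟨⟨by norm_num, by norm_num, he3, ⟨2, by norm_num⟩, hs1, hs3⟩, ?_⟩, ?_⟩
    · omega
    · rw [hz, Fe]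

lemma Hs_zero : Hs 0 = ∅ := by
  ext w
  simp only [Hs, Set.mem_ofPred_eq, Set.mem_empty_iff_false, iff_false, not_and]
  intro h
  have := h.2.2.1
  omega

lemma Hs_card (hG : GapStatement) (M : ℕ) : ((Hs M).ncard : ℝ) ≤ 2 * (M : ℝ) ^ ((1 : ℝ) / 3) := by
  induction M using Nat.strong_induction_on with
  | _ M ih =>
    rcases Nat.eq_zero_or_pos M with rfl | hM
    · rw [Hs_zero]
      simp
    · have h1 : (Hs M).ncard ≤ 1 + (Hs (M / 12)).ncard := by
        calc (Hs M).ncard ≤ ({8} ∪ (Fe 1 3) '' Hs (M / 12)).ncard :=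
              Set.ncard_le_ncard (Hs_rec hG M)
                ((Set.finite_singleton 8).union ((Hs_fin _).image _))
          _ ≤ ({8} : Set ℕ).ncard + ((Fe 1 3) '' Hs (M / 12)).ncard := Set.ncard_union_le _ _
          _ ≤ 1 + (Hs (M / 12)).ncard := by
              rw [Set.ncard_singleton]
              exact Nat.add_le_add_left (Set.ncard_image_le (Hs_fin _)) 1
      have h2 := ih (M / 12) (Nat.div_lt_self hM (by norm_num))
      have h3 : (((M / 12 : ℕ) : ℝ)) ^ ((1 : ℝ) / 3) ≤ (1 / 2) * (M : ℝ) ^ ((1 : ℝ) / 3) := by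
        have h4 : ((M / 12 : ℕ) : ℝ) ≤ (M : ℝ) / 8 := by
          have h5 : ((M / 12 : ℕ) : ℝ) ≤ (M : ℝ) / 12 := by exact_mod_cast Nat.cast_div_le
          have h6 : (0 : ℝ) ≤ M := Nat.cast_nonneg M
          linarith
        calc (((M / 12 : ℕ) : ℝ)) ^ ((1 : ℝ) / 3) ≤ ((M : ℝ) / 8) ^ ((1 : ℝ) / 3) :=
              Real.rpow_le_rpow (Nat.cast_nonneg _) h4 (by norm_num)
          _ = (M : ℝ) ^ ((1 : ℝ) / 3) / (8 : ℝ) ^ ((1 : ℝ) / 3) :=
              Real.div_rpow (Nat.cast_nonneg M) (by norm_num) _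
          _ = (1 / 2) * (M : ℝ) ^ ((1 : ℝ) / 3) := by
              have h7 : (8 : ℝ) ^ ((1 : ℝ) / 3) = 2 := by
                rw [show (8 : ℝ) = 2 ^ (3 : ℝ) by norm_num, ← Real.rpow_mul (by norm_num)]
                norm_num
              rw [h7]
              ring
      have h8 : (1 : ℝ) ≤ (M : ℝ) ^ ((1 : ℝ) / 3) :=
        Real.one_le_rpow (by exact_mod_cast hM) (by norm_num)
      have h9 : ((Hs M).ncard : ℝ) ≤ 1 + ((Hs (M / 12)).ncard : ℝ) := by exact_mod_cast h1
      linarith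

/-- Euler triples of product at most `N` -/
def Es (N : ℕ) : Set (ℕ × ℕ × ℕ) :=
  {t | (∃ r, Euler t.1 t.2.1 t.2.2 r) ∧ t.1 * t.2.1 * t.2.2 ≤ N}

/-- a finite set containing the Euler triples -/
def Ef (K : ℕ) : Finset (ℕ × ℕ × ℕ) :=
  ((Finset.Icc 2 K).sigma (fun r => (r * r - 1).divisors)).image
    (fun p => (p.2, (p.1 * p.1 - 1) / p.2, p.2 + (p.1 * p.1 - 1) / p.2 + 2 * p.1))

lemma Es_sub (N K : ℕ) (hK : ∀ r : ℕ, r ^ 3 ≤ N → r ≤ K) : Es N ⊆ (Ef K : Set (ℕ × ℕ × ℕ)) := by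
  rintro ⟨u, v, w⟩ ⟨⟨r, hu, huv, hr, hw⟩, hN⟩
  simp only at hu huv hr hw hN
  have hv : 2 ≤ v := by omega
  have h1 : 2 ≤ u * v := by nlinarith
  have hr2 : 2 ≤ r := by nlinarith
  have h2 : r ^ 3 ≤ N := by
    refine le_trans ?_ hN
    subst hw
    have h3 : u * v = r * r - 1 := by omega
    have h4 : r ^ 3 ≤ (u * v) * (2 * r) := by
      have h5 : r * r ≤ 2 * (u * v) := by nlinarith
      calc r ^ 3 = (r * r) * r := by ring
        _ ≤ (2 * (u * v)) * r := Nat.mul_le_mul_right r h5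
        _ = (u * v) * (2 * r) := by ring
    exact h4.trans (Nat.mul_le_mul_left _ (by omega))
  have h6 : r * r - 1 = u * v := by omega
  simp only [Ef, Finset.coe_image, Set.mem_image, Finset.mem_coe, Finset.mem_sigma,
    Finset.mem_Icc, Nat.mem_divisors]
  refine ⟨⟨r, u⟩, ⟨⟨hr2, hK r h2⟩, ?_, ?_⟩, ?_⟩
  · exact ⟨v, h6⟩
  · show r * r - 1 ≠ 0
    omega
  · have h7 : (r * r - 1) / u = v := by
      rw [h6]
      exact Nat.mul_div_cancel_left v hu
    simp only [h7, hw]

lemma Ef_card (K : ℕ) : (Ef K).card ≤ ∑ r ∈ Finset.Icc 2 K, (r * r - 1).divisors.card := by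
  refine Finset.card_image_le.trans ?_
  rw [Finset.card_sigma]

lemma Es_card (ε : ℝ) (hε : 0 < ε) : ∃ C : ℝ, 0 ≤ C ∧ ∀ N : ℕ, 1 ≤ N →
    ((Es N).ncard : ℝ) ≤ C * (N : ℝ) ^ (1 / 3 + ε) := by
  obtain ⟨C, hC1, hC⟩ := Pool.Agent.Helper69_Weyl.exists_card_divisors_le ε hε
  refine ⟨C, by linarith, fun N hN => ?_⟩
  have hN1 : (1 : ℝ) ≤ N := by exact_mod_cast hN
  have hN0 : (0 : ℝ) ≤ N := by linarith
  set K : ℕ := ⌊(N : ℝ) ^ ((1 : ℝ) / 3)⌋₊ with hKdef
  have hKle : (K : ℝ) ≤ (N : ℝ) ^ ((1 : ℝ) / 3) := Nat.floor_le (by positivity)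
  have hK : ∀ r : ℕ, r ^ 3 ≤ N → r ≤ K := by
    intro r hr
    rw [hKdef]
    apply Nat.le_floor
    have h1 : ((r : ℝ) ^ 3) ≤ N := by exact_mod_cast hr
    calc (r : ℝ) = ((r : ℝ) ^ 3) ^ ((1 : ℝ) / 3) := by
          rw [← Real.rpow_natCast, ← Real.rpow_mul (Nat.cast_nonneg r)]
          norm_num
      _ ≤ (N : ℝ) ^ ((1 : ℝ) / 3) := Real.rpow_le_rpow (by positivity) h1 (by norm_num)
  have h1 : (Es N).ncard ≤ (Ef K).card := by
    rw [← Set.ncard_coe_finset]
    exact Set.ncard_le_ncard (Es_sub N K hK) (Finset.finite_toSet _)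
  have h2 : (((Ef K).card : ℕ) : ℝ) ≤ ∑ r ∈ Finset.Icc 2 K, C * (N : ℝ) ^ ε := by
    calc (((Ef K).card : ℕ) : ℝ) ≤
          ((∑ r ∈ Finset.Icc 2 K, (r * r - 1).divisors.card : ℕ) : ℝ) := by
            exact_mod_cast Ef_card K
      _ = ∑ r ∈ Finset.Icc 2 K, (((r * r - 1).divisors.card : ℕ) : ℝ) := by push_cast; rfl
      _ ≤ ∑ r ∈ Finset.Icc 2 K, C * (N : ℝ) ^ ε := by
          refine Finset.sum_le_sum fun r hr => ?_
          rw [Finset.mem_Icc] at hr
          have hne : r * r - 1 ≠ 0 := by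
            have : 4 ≤ r * r := by nlinarith [hr.1]
            omega
          refine (hC _ hne).trans ?_
          refine mul_le_mul_of_nonneg_left ?_ (by linarith)
          refine Real.rpow_le_rpow (Nat.cast_nonneg _) ?_ hε.le
          have h3 : (((r * r - 1 : ℕ)) : ℝ) ≤ (r : ℝ) ^ 2 := by
            have : r * r - 1 ≤ r ^ 2 := by
              rw [pow_two]
              exact Nat.sub_le _ _
            exact_mod_cast this
          have h4 : (r : ℝ) ≤ (N : ℝ) ^ ((1 : ℝ) / 3) :=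
            le_trans (by exact_mod_cast hr.2) hKle
          have h5 : (r : ℝ) ^ 2 ≤ ((N : ℝ) ^ ((1 : ℝ) / 3)) ^ 2 :=
            pow_le_pow_left₀ (Nat.cast_nonneg r) h4 2
          have h6 : ((N : ℝ) ^ ((1 : ℝ) / 3)) ^ 2 ≤ N := by
            rw [← Real.rpow_natCast, ← Real.rpow_mul hN0]
            calc (N : ℝ) ^ ((1 : ℝ) / 3 * ((2 : ℕ) : ℝ)) ≤ (N : ℝ) ^ (1 : ℝ) :=
                  Real.rpow_le_rpow_of_exponent_le hN1 (by norm_num)
              _ = N := Real.rpow_one _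
          linarith
  rw [Finset.sum_const, nsmul_eq_mul] at h2
  have h7 : ((Finset.Icc 2 K).card : ℝ) ≤ (N : ℝ) ^ ((1 : ℝ) / 3) := by
    refine le_trans ?_ hKle
    rw [Nat.card_Icc]
    have : K + 1 - 2 ≤ K := by omega
    exact_mod_cast this
  have h8 : (0 : ℝ) ≤ C * (N : ℝ) ^ ε := by positivity
  calc ((Es N).ncard : ℝ) ≤ ((Ef K).card : ℝ) := by exact_mod_cast h1
    _ ≤ ((Finset.Icc 2 K).card : ℝ) * (C * (N : ℝ) ^ ε) := h2
    _ ≤ (N : ℝ) ^ ((1 : ℝ) / 3) * (C * (N : ℝ) ^ ε) := mul_le_mul_of_nonneg_right h7 h8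
    _ = C * (N : ℝ) ^ (1 / 3 + ε) := by
        rw [Real.rpow_add (by linarith)]
        ring

lemma SS_rec (hG : GapStatement) (N : ℕ) :
    SS N ⊆ Es N ∪ ((fun w => ((1, 3, w) : ℕ × ℕ × ℕ)) '' Hs N ∪
      (((fun t : ℕ × ℕ × ℕ => ((t.2.1, t.2.2, Fe t.2.1 t.2.2 t.1) : ℕ × ℕ × ℕ)) '' SS (N / 32)) ∪
      (((fun t : ℕ × ℕ × ℕ => ((t.1, t.2.2, Fe t.1 t.2.2 t.2.1) : ℕ × ℕ × ℕ)) '' SS (N / 32)) ∪
      ((fun t : ℕ × ℕ × ℕ => ((t.1, t.2.1, Fe t.1 t.2.1 t.2.2) : ℕ × ℕ × ℕ)) '' SS (N / 32))))) := by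
  rintro ⟨x, y, z⟩ ⟨hD, hN⟩
  have hD' := hD
  obtain ⟨hx, hxy, hyz, s1, s2, s3⟩ := hD'
  simp only at hx hxy hyz s1 s2 s3 hN hD
  rcases hG x y z hD with ⟨r, hr⟩ | ⟨e, he, h1, h3, hs1, hs3, hz, hlt⟩
  · left
    exact ⟨⟨r, hr⟩, hN⟩
  · right
    by_cases h8 : 8 ≤ x * y
    · right
      have hp : x * y * e ≤ N / 32 := by
        rw [Nat.le_div_iff_mul_le (by norm_num)]
        have h9 : x * y * (4 * x * y * e) ≤ x * y * z := Nat.mul_le_mul_left _ hlt.le
        have h10 : 8 * (4 * (x * y * e)) ≤ x * y * (4 * (x * y * e)) := Nat.mul_le_mul_right _ h8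
        have h11 : x * y * (4 * x * y * e) = x * y * (4 * (x * y * e)) := by ring
        omega
      rcases lt_or_gt_of_ne h1 with hex | hex
      · left
        refine ⟨(e, x, y), ⟨⟨he, hex, hxy, ?_, ?_, s1⟩, ?_⟩, ?_⟩
        · simpa [mul_comm] using hs1
        · simpa [mul_comm] using hs3
        · have : e * x * y = x * y * e := by ring
          simpa [this] using hp
        · simp [hz, Fe]
      · rcases lt_or_gt_of_ne h3 with hey | hey
        · right
          left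
          refine ⟨(x, e, y), ⟨⟨hx, hex, hey, hs1, s1, ?_⟩, ?_⟩, ?_⟩
          · simpa [mul_comm] using hs3
          · have : x * e * y = x * y * e := by ring
            simpa [this] using hp
          · simp [hz, Fe]
        · right
          right
          refine ⟨(x, y, e), ⟨⟨hx, hxy, hey, s1, hs1, hs3⟩, hp⟩, ?_⟩
          simp [hz, Fe]
    · left
      push Not at h8
      have hx1 : x = 1 ∧ y = 3 := by
        obtain ⟨k, hk⟩ := s1
        have hk3 : k < 3 := by nlinarith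
        have hy2 : 2 ≤ y := by omega
        have hxy2 : 2 ≤ x * y := by nlinarith
        have hk2 : 2 ≤ k := by nlinarith
        have : k = 2 := by omega
        subst this
        have h9 : x * y = 3 := by omega
        have hx2 : x < 2 := by nlinarith
        have : x = 1 := by omega
        subst this
        omega
      obtain ⟨rfl, rfl⟩ := hx1
      refine ⟨z, ⟨hD, ?_⟩, rfl⟩
      omega

lemma SS_zero : SS 0 = ∅ := by
  ext ⟨x, y, z⟩
  simp only [SS, Set.mem_ofPred_eq, Set.mem_empty_iff_false, iff_false, not_and, DTriple]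
  rintro ⟨h1, h2, h3, -⟩ h
  have h4 : x * y * z = 0 := by omega
  have h5 : 0 < x * y * z := by
    have : 0 < y := by omega
    have : 0 < z := by omega
    positivity
  omega

theorem npc (hG : GapStatement) : NpcStatement := by
  intro ε hε
  obtain ⟨C, hC0, hC⟩ := Es_card ε hε
  refine ⟨20 * (C + 2), fun N hN => ?_⟩
  have main : ∀ N : ℕ, ((SS N).ncard : ℝ) ≤ 20 * (C + 2) * (N : ℝ) ^ (1 / 3 + ε) := by
    intro N
    induction N using Nat.strong_induction_on with
    | _ N ih =>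
      rcases Nat.eq_zero_or_pos N with rfl | hM
      · rw [SS_zero]
        simp only [Set.ncard_empty, Nat.cast_zero]
        positivity
      · have hf := SS_fin (N / 32)
        have hEf : (Es N).Finite := by
          refine Set.Finite.subset (Finset.finite_toSet (Ef N)) (Es_sub N N ?_)
          intro r hr
          rcases Nat.eq_zero_or_pos r with rfl | hr0
          · omega
          · calc r = r * 1 * 1 := by ring
              _ ≤ r * r * r := Nat.mul_le_mul (Nat.mul_le_mul le_rfl hr0) hr0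
              _ = r ^ 3 := by ring
              _ ≤ N := hr
        have h1 : (SS N).ncard ≤ (Es N).ncard + ((Hs N).ncard +
            ((SS (N / 32)).ncard + ((SS (N / 32)).ncard + (SS (N / 32)).ncard))) := by
          refine (Set.ncard_le_ncard (SS_rec hG N) ?_).trans ?_
          · exact hEf.union (((Hs_fin N).image _).union ((hf.image _).union
              ((hf.image _).union (hf.image _))))
          · refine (Set.ncard_union_le _ _).trans (Nat.add_le_add_left ?_ _)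
            refine (Set.ncard_union_le _ _).trans (Nat.add_le_add
              (Set.ncard_image_le (Hs_fin N)) ?_)
            refine (Set.ncard_union_le _ _).trans (Nat.add_le_add (Set.ncard_image_le hf) ?_)
            exact (Set.ncard_union_le _ _).trans (Nat.add_le_add (Set.ncard_image_le hf)
              (Set.ncard_image_le hf))
        have hN1 : (1 : ℝ) ≤ N := by exact_mod_cast hM
        have h2 := ih (N / 32) (Nat.div_lt_self hM (by norm_num))
        have h3 : (((N / 32 : ℕ) : ℝ)) ^ (1 / 3 + ε) ≤ (0.95 / 3) * (N : ℝ) ^ (1 / 3 + ε) := by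
          have h4 : ((N / 32 : ℕ) : ℝ) ≤ (N : ℝ) * (1 / 32) := by
            have h5 : ((N / 32 : ℕ) : ℝ) ≤ (N : ℝ) / 32 := by exact_mod_cast Nat.cast_div_le
            linarith
          have h6 : ((1 : ℝ) / 32) ^ (1 / 3 + ε) ≤ 0.95 / 3 := by
            calc ((1 : ℝ) / 32) ^ (1 / 3 + ε) ≤ ((1 : ℝ) / 32) ^ ((1 : ℝ) / 3) :=
                  Real.rpow_le_rpow_of_exponent_ge (by norm_num) (by norm_num) (by linarith)
              _ ≤ ((0.95 / 3 : ℝ) ^ (3 : ℝ)) ^ ((1 : ℝ) / 3) := by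
                  refine Real.rpow_le_rpow (by norm_num) ?_ (by norm_num)
                  rw [show (3 : ℝ) = ((3 : ℕ) : ℝ) by norm_num, Real.rpow_natCast]
                  norm_num
              _ = 0.95 / 3 := by
                  rw [← Real.rpow_mul (by norm_num)]
                  norm_num
          calc (((N / 32 : ℕ) : ℝ)) ^ (1 / 3 + ε) ≤ ((N : ℝ) * (1 / 32)) ^ (1 / 3 + ε) :=
                Real.rpow_le_rpow (Nat.cast_nonneg _) h4 (by positivity)
            _ = (N : ℝ) ^ (1 / 3 + ε) * ((1 : ℝ) / 32) ^ (1 / 3 + ε) :=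
                Real.mul_rpow (by linarith) (by norm_num)
            _ ≤ (N : ℝ) ^ (1 / 3 + ε) * (0.95 / 3) :=
                mul_le_mul_of_nonneg_left h6 (by positivity)
            _ = (0.95 / 3) * (N : ℝ) ^ (1 / 3 + ε) := by ring
        have h7 := hC N hM
        have h8 : ((Hs N).ncard : ℝ) ≤ 2 * (N : ℝ) ^ (1 / 3 + ε) := by
          refine (Hs_card hG N).trans ?_
          refine mul_le_mul_of_nonneg_left ?_ (by norm_num)
          exact Real.rpow_le_rpow_of_exponent_le hN1 (by linarith)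
        have h9 : ((SS N).ncard : ℝ) ≤ ((Es N).ncard : ℝ) + (((Hs N).ncard : ℝ) +
            (((SS (N / 32)).ncard : ℝ) + (((SS (N / 32)).ncard : ℝ) +
              ((SS (N / 32)).ncard : ℝ)))) := by exact_mod_cast h1
        have h10 : 20 * (C + 2) * (((N / 32 : ℕ) : ℝ)) ^ (1 / 3 + ε) ≤
            20 * (C + 2) * ((0.95 / 3) * (N : ℝ) ^ (1 / 3 + ε)) :=
          mul_le_mul_of_nonneg_left h3 (by positivity)
        nlinarith
  exact main N

end Pool.Agent.DIO.H38
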